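import Pool.Agent.helper82.LB.Spec1

/-!
# Project LB (MP_2e0e07_nt), row POW: products of powers near 1 (helper30)
-/

set_option autoImplicit false

open Matrix Polynomial NumberField Pool.Agent.GO Pool.Agent.RG Pool.Agent.CH

namespace Pool.Agent.LB

lemma POW_add {E : Type} [SeminormedAddCommGroup E] [IsUltrametricDist E] {x y : E} {r : ℝ}
    (hx : ‖x‖ ≤ r) (hy : ‖y‖ ≤ r) : ‖x + y‖ ≤ r :=
  (IsUltrametricDist.norm_add_le_max x y).trans (max_le hx hy)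

lemma POW_sub {E : Type} [SeminormedAddCommGroup E] [IsUltrametricDist E] {x y : E} {r : ℝ}
    (hx : ‖x‖ ≤ r) (hy : ‖y‖ ≤ r) : ‖x - y‖ ≤ r := by
  rw [sub_eq_add_neg]
  exact POW_add hx (by rwa [norm_neg])

/-- powers of `1 + z` to first order -/
lemma POW_pow (p : ℕ) [Fact p.Prime] (𝒜 : Type) [Ring 𝒜] [Algebra ℚ_[p] 𝒜] (Y : 𝒜)
    (s e a u : ℚ_[p]) (c δ : ℝ) (hc : 0 < c) (hδ : δ ≤ 1)
    (hY : Y * Y = s • Y - e • (1 : 𝒜)) (hs : ‖s‖ ≤ c) (he : ‖e‖ ≤ c ^ 2) (ha : ‖a‖ ≤ δ)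
    (hu : c * ‖u‖ ≤ δ) (m : ℕ) :
    ∃ w w' : ℚ_[p], (1 + (a • (1 : 𝒜) + u • Y)) ^ m = (1 + (m * a + w)) • (1 : 𝒜) + (m * u + w') • Y ∧
      ‖w‖ ≤ δ ^ 2 ∧ c * ‖w'‖ ≤ δ ^ 2 := by
  have hδ0 : 0 ≤ δ := (norm_nonneg a).trans ha
  induction m with
  | zero => exact ⟨0, 0, by simp, by simp; positivity, by simp; positivity⟩
  | succ m ih =>
    obtain ⟨w, w', h1, h2, h3⟩ := ih
    refine ⟨w + m * a ^ 2 + w * a - e * (m * u + w') * u,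
      w' + m * a * u + w * u + (m * u + w') * a + s * (m * u + w') * u, ?_, ?_, ?_⟩
    · rw [pow_succ, h1]
      have hexp : ((1 + (m * a + w)) • (1 : 𝒜) + (m * u + w') • Y) * (1 + (a • (1 : 𝒜) + u • Y)) =
          (1 + (m * a + w)) • (1 : 𝒜) + (m * u + w') • Y + ((1 + (m * a + w)) * a) • (1 : 𝒜) +
            ((m * u + w') * a) • Y + ((1 + (m * a + w)) * u) • Y + ((m * u + w') * u) • (Y * Y) := by
        simp only [mul_add, add_mul, mul_one, one_mul, smul_mul_smul_comm]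
        abel
      rw [hexp, hY]
      push_cast
      module
    · have hm : ‖(m : ℚ_[p])‖ ≤ 1 := Padic.norm_int_le_one m
      have h4 : ‖(m : ℚ_[p]) * a ^ 2‖ ≤ δ ^ 2 := by
        rw [norm_mul, norm_pow]
        calc ‖(m : ℚ_[p])‖ * ‖a‖ ^ 2 ≤ 1 * δ ^ 2 := by gcongr
          _ = _ := one_mul _
      have h5 : ‖w * a‖ ≤ δ ^ 2 := by
        rw [norm_mul]
        calc ‖w‖ * ‖a‖ ≤ δ ^ 2 * 1 := mul_le_mul h2 (ha.trans hδ) (norm_nonneg _) (by positivity)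
          _ = _ := mul_one _
      have h6 : c * ‖(m * u + w' : ℚ_[p])‖ ≤ δ := by
        have h7 : ‖(m * u + w' : ℚ_[p])‖ ≤ δ / c := by
          refine POW_add ?_ ?_
          · rw [norm_mul, le_div_iff₀ hc]
            calc ‖(m : ℚ_[p])‖ * ‖u‖ * c ≤ 1 * ‖u‖ * c := by gcongr
              _ = c * ‖u‖ := by ring
              _ ≤ δ := hu
          · rw [le_div_iff₀ hc]
            calc ‖w'‖ * c = c * ‖w'‖ := by ring
              _ ≤ δ ^ 2 := h3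
              _ ≤ δ := by nlinarith
        rw [le_div_iff₀ hc] at h7
        linarith
      have h8 : ‖e * (m * u + w') * u‖ ≤ δ ^ 2 := by
        rw [norm_mul, norm_mul]
        calc ‖e‖ * ‖(m * u + w' : ℚ_[p])‖ * ‖u‖ ≤ c ^ 2 * ‖(m * u + w' : ℚ_[p])‖ * ‖u‖ := by gcongr
          _ = (c * ‖(m * u + w' : ℚ_[p])‖) * (c * ‖u‖) := by ring
          _ ≤ δ * δ := by gcongr
          _ = _ := by ring
      exact POW_sub (POW_add (POW_add h2 h4) h5) h8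
    · have hm : ‖(m : ℚ_[p])‖ ≤ 1 := Padic.norm_int_le_one m
      have h6 : c * ‖(m * u + w' : ℚ_[p])‖ ≤ δ := by
        have h7 : ‖(m * u + w' : ℚ_[p])‖ ≤ δ / c := by
          refine POW_add ?_ ?_
          · rw [norm_mul, le_div_iff₀ hc]
            calc ‖(m : ℚ_[p])‖ * ‖u‖ * c ≤ 1 * ‖u‖ * c := by gcongr
              _ = c * ‖u‖ := by ring
              _ ≤ δ := hu
          · rw [le_div_iff₀ hc]
            calc ‖w'‖ * c = c * ‖w'‖ := by ring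
              _ ≤ δ ^ 2 := h3
              _ ≤ δ := by nlinarith
        rw [le_div_iff₀ hc] at h7
        linarith
      have key : ∀ x : ℚ_[p], c * ‖x‖ ≤ δ ^ 2 ↔ ‖x‖ ≤ δ ^ 2 / c := by
        intro x
        rw [le_div_iff₀ hc, mul_comm]
      rw [key]
      have h9 : ‖(m : ℚ_[p]) * a * u‖ ≤ δ ^ 2 / c := by
        rw [← key, norm_mul, norm_mul]
        calc c * (‖(m : ℚ_[p])‖ * ‖a‖ * ‖u‖) ≤ c * (1 * ‖a‖ * ‖u‖) := by gcongr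
          _ = ‖a‖ * (c * ‖u‖) := by ring
          _ ≤ δ * δ := by gcongr
          _ = _ := by ring
      have h10 : ‖w * u‖ ≤ δ ^ 2 / c := by
        rw [← key, norm_mul]
        calc c * (‖w‖ * ‖u‖) = ‖w‖ * (c * ‖u‖) := by ring
          _ ≤ δ ^ 2 * δ := by gcongr
          _ ≤ δ ^ 2 * 1 := by gcongr
          _ = _ := mul_one _
      have h11 : ‖(m * u + w') * a‖ ≤ δ ^ 2 / c := by
        rw [← key, norm_mul]
        calc c * (‖(m * u + w' : ℚ_[p])‖ * ‖a‖) = (c * ‖(m * u + w' : ℚ_[p])‖) * ‖a‖ := by ring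
          _ ≤ δ * δ := by gcongr
          _ = _ := by ring
      have h12 : ‖s * (m * u + w') * u‖ ≤ δ ^ 2 / c := by
        rw [← key, norm_mul, norm_mul]
        calc c * (‖s‖ * ‖(m * u + w' : ℚ_[p])‖ * ‖u‖) ≤ c * (c * ‖(m * u + w' : ℚ_[p])‖ * ‖u‖) := by gcongr
          _ = (c * ‖(m * u + w' : ℚ_[p])‖) * (c * ‖u‖) := by ring
          _ ≤ δ * δ := by gcongr
          _ = _ := by ring
      exact POW_add (POW_add (POW_add (POW_add ((key _).1 h3) h9) h10) h11) h12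

/-- the power `p ^ n` -/
lemma POW_pn (p : ℕ) [Fact p.Prime] (𝒜 : Type) [Ring 𝒜] [Algebra ℚ_[p] 𝒜] (Y : 𝒜)
    (s e : ℚ_[p]) (hY : Y * Y = s • Y - e • (1 : 𝒜)) (hs : ‖s‖ ≤ ((p : ℝ) ^ 2)⁻¹)
    (he : ‖e‖ ≤ (((p : ℝ) ^ 2)⁻¹) ^ 2) (n : ℕ) :
    ∃ a u : ℚ_[p], (1 + Y) ^ (p ^ n) = 1 + (a • (1 : 𝒜) + u • Y) ∧
      ‖a‖ ≤ ((p : ℝ) ^ (n + 2))⁻¹ ∧ ‖u‖ = ((p : ℝ) ^ n)⁻¹ := by
  have hp1 : (1 : ℝ) < p := by exact_mod_cast (Fact.out : p.Prime).one_lt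
  have hp0 : (0 : ℝ) < p := by linarith
  induction n with
  | zero => exact ⟨0, 1, by simp, by simp, by simp⟩
  | succ n ih =>
    obtain ⟨a, u, h1, h2, h3⟩ := ih
    have hδ : ((p : ℝ) ^ (n + 2))⁻¹ ≤ 1 := inv_le_one_of_one_le₀ (one_le_pow₀ hp1.le)
    have hcu : ((p : ℝ) ^ 2)⁻¹ * ‖u‖ ≤ ((p : ℝ) ^ (n + 2))⁻¹ := by
      rw [h3, ← mul_inv, ← pow_add, add_comm]
    obtain ⟨w, w', h4, h5, h6⟩ := POW_pow p 𝒜 Y s e a u ((p : ℝ) ^ 2)⁻¹ ((p : ℝ) ^ (n + 2))⁻¹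
      (by positivity) hδ hY hs he h2 hcu p
    refine ⟨p * a + w, p * u + w', ?_, ?_, ?_⟩
    · rw [pow_succ, pow_mul, h1, h4]
      module
    · refine POW_add ?_ ?_
      · rw [norm_mul, Padic.norm_p]
        calc (p : ℝ)⁻¹ * ‖a‖ ≤ (p : ℝ)⁻¹ * ((p : ℝ) ^ (n + 2))⁻¹ := by gcongr
          _ = _ := by rw [← mul_inv, ← pow_succ']
      · refine h5.trans ?_
        rw [← inv_pow, ← inv_pow, ← pow_mul]
        exact pow_le_pow_of_le_one (by positivity) (inv_le_one_of_one_le₀ hp1.le) (by omega)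
    · have h7 : ‖w'‖ ≤ ((p : ℝ) ^ (2 * n + 2))⁻¹ := by
        have h8 : ‖w'‖ ≤ (p : ℝ) ^ 2 * (((p : ℝ) ^ (n + 2))⁻¹) ^ 2 := by
          rwa [inv_mul_le_iff₀ (by positivity)] at h6
        refine h8.trans (le_of_eq ?_)
        rw [← inv_pow, ← inv_pow, ← pow_mul]
        have h9 : (n + 2) * 2 = 2 + (2 * n + 2) := by ring
        rw [h9, pow_add ((p : ℝ)⁻¹) 2, ← mul_assoc, ← mul_pow, mul_inv_cancel₀ hp0.ne', one_pow, one_mul]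
      have h10 : ‖(p : ℚ_[p]) * u‖ = ((p : ℝ) ^ (n + 1))⁻¹ := by
        rw [norm_mul, Padic.norm_p, h3, ← mul_inv, ← pow_succ']
      have h11 : ‖w'‖ < ‖(p : ℚ_[p]) * u‖ := by
        rw [h10]
        refine h7.trans_lt ?_
        exact inv_strictAnti₀ (by positivity) (pow_lt_pow_right₀ hp1 (by omega))
      rw [IsUltrametricDist.norm_add_eq_max_of_norm_ne_norm h11.ne', max_eq_left h11.le, h10]

/-- powers with a given leading coefficient -/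
lemma POW_tau (p : ℕ) [Fact p.Prime] (𝒜 : Type) [Ring 𝒜] [Algebra ℚ_[p] 𝒜] (Y : 𝒜)
    (s e : ℚ_[p]) (hY : Y * Y = s • Y - e • (1 : 𝒜)) (hs : ‖s‖ ≤ ((p : ℝ) ^ 2)⁻¹)
    (he : ‖e‖ ≤ (((p : ℝ) ^ 2)⁻¹) ^ 2) (n : ℕ) (τ : ℤ) :
    ∃ (k : ℕ) (a u : ℚ_[p]), (1 + Y) ^ k = 1 + (a • (1 : 𝒜) + u • Y) ∧
      ‖a‖ ≤ ((p : ℝ) ^ n)⁻¹ ∧ ‖u‖ ≤ ((p : ℝ) ^ n)⁻¹ ∧ ‖u - τ * p ^ n‖ ≤ ((p : ℝ) ^ (2 * n))⁻¹ := by
  have hp1 : (1 : ℝ) < p := by exact_mod_cast (Fact.out : p.Prime).one_lt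
  have hp0 : (0 : ℝ) < p := by linarith
  have hi1 : (p : ℝ)⁻¹ ≤ 1 := inv_le_one_of_one_le₀ hp1.le
  have hmono : ∀ i j : ℕ, i ≤ j → ((p : ℝ) ^ j)⁻¹ ≤ ((p : ℝ) ^ i)⁻¹ := fun i j hij =>
    inv_anti₀ (by positivity) (pow_le_pow_right₀ hp1.le hij)
  obtain ⟨a, u, h1, h2, h3⟩ := POW_pn p 𝒜 Y s e hY hs he n
  have hu0 : u ≠ 0 := by
    rw [← norm_pos_iff, h3]
    positivity
  have hpn : ‖((p : ℚ_[p]) ^ n)‖ = ((p : ℝ) ^ n)⁻¹ := by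
    rw [norm_pow, Padic.norm_p, inv_pow]
  have hξ : ‖(τ : ℚ_[p]) * p ^ n / u‖ ≤ 1 := by
    rw [norm_div, norm_mul, hpn, h3, mul_div_assoc, div_self (by positivity), mul_one]
    exact Padic.norm_int_le_one τ
  obtain ⟨m, hm⟩ : ∃ m : ℕ, ‖(τ : ℚ_[p]) * p ^ n / u - m‖ ≤ ((p : ℝ) ^ n)⁻¹ := by
    refine ⟨PadicInt.appr (⟨(τ : ℚ_[p]) * p ^ n / u, hξ⟩ : ℤ_[p]) n, ?_⟩
    have h := (PadicInt.norm_le_pow_iff_mem_span_pow _ n).2
      (PadicInt.appr_spec n (⟨(τ : ℚ_[p]) * p ^ n / u, hξ⟩ : ℤ_[p]))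
    rw [PadicInt.norm_def] at h
    push_cast at h
    rwa [_root_.zpow_neg, _root_.zpow_natCast] at h
  have hδ : ((p : ℝ) ^ (n + 2))⁻¹ ≤ 1 := inv_le_one_of_one_le₀ (one_le_pow₀ hp1.le)
  have hcu : ((p : ℝ) ^ 2)⁻¹ * ‖u‖ ≤ ((p : ℝ) ^ (n + 2))⁻¹ := by
    rw [h3, ← mul_inv, ← pow_add, add_comm]
  obtain ⟨w, w', h4, h5, h6⟩ := POW_pow p 𝒜 Y s e a u ((p : ℝ) ^ 2)⁻¹ ((p : ℝ) ^ (n + 2))⁻¹
    (by positivity) hδ hY hs he h2 hcu m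
  have hmn : ‖(m : ℚ_[p])‖ ≤ 1 := Padic.norm_int_le_one m
  have h7 : ‖w'‖ ≤ ((p : ℝ) ^ (2 * n + 2))⁻¹ := by
    have h8 : ‖w'‖ ≤ (p : ℝ) ^ 2 * (((p : ℝ) ^ (n + 2))⁻¹) ^ 2 := by
      rwa [inv_mul_le_iff₀ (by positivity)] at h6
    refine h8.trans (le_of_eq ?_)
    rw [← inv_pow, ← inv_pow, ← pow_mul]
    have h9 : (n + 2) * 2 = 2 + (2 * n + 2) := by ring
    rw [h9, pow_add ((p : ℝ)⁻¹) 2, ← mul_assoc, ← mul_pow, mul_inv_cancel₀ hp0.ne', one_pow, one_mul]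
  refine ⟨p ^ n * m, m * a + w, m * u + w', ?_, ?_, ?_, ?_⟩
  · rw [pow_mul, h1, h4]
    module
  · refine POW_add ?_ ?_
    · rw [norm_mul]
      calc ‖(m : ℚ_[p])‖ * ‖a‖ ≤ 1 * ((p : ℝ) ^ (n + 2))⁻¹ := by gcongr
        _ ≤ _ := by rw [one_mul]; exact hmono _ _ (by omega)
    · refine h5.trans ?_
      rw [← inv_pow, ← inv_pow, ← pow_mul]
      exact pow_le_pow_of_le_one (by positivity) hi1 (by omega)
  · refine POW_add ?_ (h7.trans (hmono _ _ (by omega)))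
    rw [norm_mul]
    calc ‖(m : ℚ_[p])‖ * ‖u‖ ≤ 1 * ((p : ℝ) ^ n)⁻¹ := by gcongr; exact h3.le
      _ = _ := one_mul _
  · have h8 : (m * u + w' - τ * p ^ n : ℚ_[p]) = -(u * (τ * p ^ n / u - m)) + w' := by
      field_simp
      ring
    rw [h8]
    refine POW_add ?_ (h7.trans (hmono _ _ (by omega)))
    rw [norm_neg, norm_mul, h3]
    calc ((p : ℝ) ^ n)⁻¹ * ‖(τ : ℚ_[p]) * p ^ n / u - m‖ ≤ ((p : ℝ) ^ n)⁻¹ * ((p : ℝ) ^ n)⁻¹ := by gcongr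
      _ = _ := by rw [← mul_inv, ← pow_add]; congr 2; ring

/-- the discriminant of a perturbation -/
lemma POW_dsc {F : Type} [NormedField F] [IsUltrametricDist F] (hnat : ∀ n : ℕ, ‖(n : F)‖ ≤ 1)
    (Q E : Matrix (Fin 2) (Fin 2) F) (α q : F) (r r' : ℝ) (hr : ‖q‖ ≤ r) (hr' : 0 ≤ r')
    (hrr : r' ≤ r) (hQ : ∀ x y, ‖Q x y‖ ≤ 1) (hE : ∀ x y, ‖E x y‖ ≤ r') :
    ‖dsc (α • (1 : Matrix (Fin 2) (Fin 2) F) + q • Q + E) - q ^ 2 * dsc Q‖ ≤ r * r' := by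
  have hr0 : 0 ≤ r := hr'.trans hrr
  have h1 : dsc (α • (1 : Matrix (Fin 2) (Fin 2) F) + q • Q + E) - q ^ 2 * dsc Q =
      ((2 : ℕ) : F) * (q * (Q 0 0 - Q 1 1) * (E 0 0 - E 1 1)) + (E 0 0 - E 1 1) * (E 0 0 - E 1 1) +
      ((4 : ℕ) : F) * (q * (Q 0 1 * E 1 0)) + ((4 : ℕ) : F) * (q * (E 0 1 * Q 1 0)) +
      ((4 : ℕ) : F) * (E 0 1 * E 1 0) := by
    simp only [dsc, Matrix.trace_fin_two, Matrix.det_fin_two, Matrix.add_apply, Matrix.smul_apply,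
      Matrix.one_apply_eq, smul_eq_mul]
    rw [Matrix.one_apply_ne (show (0 : Fin 2) ≠ 1 by decide),
      Matrix.one_apply_ne (show (1 : Fin 2) ≠ 0 by decide)]
    push_cast
    ring
  have h2 : ∀ (n : ℕ) (x : F), ‖x‖ ≤ r * r' → ‖(n : F) * x‖ ≤ r * r' := by
    intro n x hx
    rw [norm_mul]
    calc ‖(n : F)‖ * ‖x‖ ≤ 1 * (r * r') := mul_le_mul (hnat n) hx (norm_nonneg _) zero_le_one
      _ = _ := one_mul _
  have h3 : ∀ x y : F, ‖x‖ ≤ r' → ‖y‖ ≤ r' → ‖x * y‖ ≤ r * r' := by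
    intro x y hx hy
    rw [norm_mul]
    exact mul_le_mul (hx.trans hrr) hy (norm_nonneg _) hr0
  have h4 : ∀ x y : F, ‖x‖ ≤ 1 → ‖y‖ ≤ r' → ‖q * (x * y)‖ ≤ r * r' := by
    intro x y hx hy
    rw [norm_mul, norm_mul]
    calc ‖q‖ * (‖x‖ * ‖y‖) ≤ r * (1 * r') := by gcongr
      _ = _ := by rw [one_mul]
  have h5 : ‖E 0 0 - E 1 1‖ ≤ r' := POW_sub (hE 0 0) (hE 1 1)
  have h6 : ‖Q 0 0 - Q 1 1‖ ≤ 1 := POW_sub (hQ 0 0) (hQ 1 1)
  rw [h1]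
  refine POW_add (POW_add (POW_add (POW_add (h2 2 _ ?_) (h3 _ _ h5 h5)) (h2 4 _ (h4 _ _ (hQ 0 1) (hE 1 0))))
    (h2 4 _ ?_)) (h2 4 _ (h3 _ _ (hE 0 1) (hE 1 0)))
  · rw [mul_assoc]
    exact h4 _ _ h6 h5
  · rw [mul_comm (E 0 1)]
    exact h4 _ _ (hQ 1 0) (hE 0 1)

/-- products of matrices -/
lemma POW_mul {F : Type} [NormedField F] [IsUltrametricDist F] (A B : Matrix (Fin 2) (Fin 2) F)
    (r r' : ℝ) (hr : 0 ≤ r) (hA : ∀ x y, ‖A x y‖ ≤ r) (hB : ∀ x y, ‖B x y‖ ≤ r') :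
    ∀ x y, ‖(A * B) x y‖ ≤ r * r' := by
  intro x y
  rw [Matrix.mul_apply, Fin.sum_univ_two]
  refine POW_add ?_ ?_
  · rw [norm_mul]
    exact mul_le_mul (hA _ _) (hB _ _) (norm_nonneg _) hr
  · rw [norm_mul]
    exact mul_le_mul (hA _ _) (hB _ _) (norm_nonneg _) hr

/-- one factor -/
lemma POW_one (p : ℕ) [Fact p.Prime] (F : Type) [NormedField F] [NormedAlgebra ℚ_[p] F]
    [IsUltrametricDist F] (X : Matrix (Fin 2) (Fin 2) F)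
    (hX : ∀ x y, ‖X x y - (1 : Matrix (Fin 2) (Fin 2) F) x y‖ ≤ ((p : ℝ) ^ 2)⁻¹)
    (hT : ∃ a b : ℚ_[p], algebraMap ℚ_[p] F a = X.trace ∧ algebraMap ℚ_[p] F b = X.det)
    (n : ℕ) (τ : ℤ) : ∃ (k : ℕ) (α : F) (G : Matrix (Fin 2) (Fin 2) F),
      X ^ k = 1 + (α • (1 : Matrix (Fin 2) (Fin 2) F) + ((p : F) ^ n) • ((τ : F) • (X - 1)) + G) ∧
      (∀ x y, ‖(X ^ k - 1) x y‖ ≤ ((p : ℝ) ^ n)⁻¹) ∧ ∀ x y, ‖G x y‖ ≤ ((p : ℝ) ^ (2 * n))⁻¹ := by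
  have hp1 : (1 : ℝ) < p := by exact_mod_cast (Fact.out : p.Prime).one_lt
  have hp0 : (0 : ℝ) < p := by linarith
  have hi1 : ((p : ℝ) ^ 2)⁻¹ ≤ 1 := inv_le_one_of_one_le₀ (one_le_pow₀ hp1.le)
  obtain ⟨a, b, ha, hb⟩ := hT
  set Y := X - 1 with hYdef
  have hYn : ∀ x y, ‖Y x y‖ ≤ ((p : ℝ) ^ 2)⁻¹ := fun x y => by
    rw [hYdef, Matrix.sub_apply]
    exact hX x y
  have h01 : (1 : Matrix (Fin 2) (Fin 2) F) 0 1 = 0 := Matrix.one_apply_ne (by decide)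
  have h10 : (1 : Matrix (Fin 2) (Fin 2) F) 1 0 = 0 := Matrix.one_apply_ne (by decide)
  have hs : algebraMap ℚ_[p] F (a - 2) = Y 0 0 + Y 1 1 := by
    rw [map_sub, ha, map_ofNat, Matrix.trace_fin_two, hYdef, Matrix.sub_apply, Matrix.sub_apply,
      Matrix.one_apply_eq, Matrix.one_apply_eq]
    ring
  have he : algebraMap ℚ_[p] F (b - a + 1) = Y 0 0 * Y 1 1 - Y 0 1 * Y 1 0 := by
    rw [map_add, map_sub, ha, hb, map_one, Matrix.trace_fin_two, Matrix.det_fin_two, hYdef]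
    simp only [Matrix.sub_apply, Matrix.one_apply_eq, h01, h10]
    ring
  have hY : Y * Y = (a - 2) • Y - (b - a + 1) • (1 : Matrix (Fin 2) (Fin 2) F) := by
    ext x y
    rw [Matrix.sub_apply, Matrix.smul_apply, Matrix.smul_apply, Algebra.smul_def, Algebra.smul_def,
      hs, he, Matrix.mul_apply, Fin.sum_univ_two]
    fin_cases x <;> fin_cases y <;> simp <;> ring
  have hs2 : ‖(a - 2 : ℚ_[p])‖ ≤ ((p : ℝ) ^ 2)⁻¹ := by
    rw [← norm_algebraMap' F, hs]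
    exact POW_add (hYn _ _) (hYn _ _)
  have he2 : ‖(b - a + 1 : ℚ_[p])‖ ≤ (((p : ℝ) ^ 2)⁻¹) ^ 2 := by
    rw [← norm_algebraMap' F, he, sq]
    refine POW_sub ?_ ?_
    · rw [norm_mul]
      exact mul_le_mul (hYn _ _) (hYn _ _) (norm_nonneg _) (by positivity)
    · rw [norm_mul]
      exact mul_le_mul (hYn _ _) (hYn _ _) (norm_nonneg _) (by positivity)
  obtain ⟨k, a', u, h1, h2, h3, h4⟩ := POW_tau p (Matrix (Fin 2) (Fin 2) F) Y (a - 2) (b - a + 1)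
    hY hs2 he2 n τ
  have hXY : 1 + Y = X := by rw [hYdef]; abel
  rw [hXY] at h1
  refine ⟨k, algebraMap ℚ_[p] F a', (u - τ * p ^ n) • Y, ?_, ?_, ?_⟩
  · rw [h1]
    ext x y
    simp only [Matrix.add_apply, Matrix.smul_apply, smul_eq_mul]
    rw [Algebra.smul_def a', Algebra.smul_def u, Algebra.smul_def (u - τ * p ^ n)]
    simp only [map_sub, map_mul, map_pow, map_natCast, map_intCast]
    ring
  · intro x y
    rw [h1, add_sub_cancel_left, Matrix.add_apply, Matrix.smul_apply, Matrix.smul_apply]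
    refine POW_add ?_ ?_
    · rw [norm_smul]
      have h5 : ‖(1 : Matrix (Fin 2) (Fin 2) F) x y‖ ≤ 1 := by
        rw [Matrix.one_apply]
        split_ifs
        · rw [norm_one]
        · rw [norm_zero]
          exact zero_le_one
      calc ‖a'‖ * ‖(1 : Matrix (Fin 2) (Fin 2) F) x y‖ ≤ ((p : ℝ) ^ n)⁻¹ * 1 := by gcongr
        _ = _ := mul_one _
    · rw [norm_smul]
      calc ‖u‖ * ‖Y x y‖ ≤ ((p : ℝ) ^ n)⁻¹ * 1 := by
            have := hYn x y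
            gcongr
            linarith
        _ = _ := mul_one _
  · intro x y
    rw [Matrix.smul_apply, norm_smul]
    calc ‖u - τ * p ^ n‖ * ‖Y x y‖ ≤ ((p : ℝ) ^ (2 * n))⁻¹ * 1 := by
          have := hYn x y
          gcongr
          linarith
      _ = _ := mul_one _

theorem POW : POW_stmt := by
  intro p _ F _ _ X hX hT τ ε hε
  have hp1 : (1 : ℝ) < p := by exact_mod_cast (Fact.out : p.Prime).one_lt
  have hp0 : (0 : ℝ) < p := by linarith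
  have hnat : ∀ n : ℕ, ‖(n : F)‖ ≤ 1 := by
    intro n
    rw [← map_natCast (algebraMap ℚ_[p] F) n, norm_algebraMap']
    exact Padic.norm_int_le_one n
  have hultra : IsUltrametricDist F :=
    IsUltrametricDist.isUltrametricDist_of_forall_norm_natCast_le_one hnat
  have hint : ∀ n : ℤ, ‖(n : F)‖ ≤ 1 := by
    intro n
    rw [← map_intCast (algebraMap ℚ_[p] F) n, norm_algebraMap']
    exact Padic.norm_int_le_one n
  obtain ⟨n, hn⟩ : ∃ n : ℕ, ((p : ℝ) ^ n)⁻¹ < ε := by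
    obtain ⟨n, hn⟩ := exists_pow_lt_of_lt_one hε (inv_lt_one_of_one_lt₀ hp1)
    exact ⟨n, by rwa [inv_pow] at hn⟩
  choose k α G h1 h2 h3 using fun i : Fin 3 => POW_one p F (X i) (hX i) (hT i) n (τ i)
  refine ⟨n, k, ?_⟩
  set D : Fin 3 → Matrix (Fin 2) (Fin 2) F := fun i => X i ^ k i - 1 with hD
  have hXD : ∀ i, X i ^ k i = 1 + D i := fun i => (add_sub_cancel 1 (X i ^ k i)).symm
  set Q : Matrix (Fin 2) (Fin 2) F := ∑ i, (τ i : F) • (X i - 1) with hQ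
  set E : Matrix (Fin 2) (Fin 2) F := ∑ i, G i + (D 0 * D 1 + D 0 * D 2 + D 1 * D 2 + D 0 * D 1 * D 2) with hE
  have hc0 : (0 : ℝ) ≤ ((p : ℝ) ^ n)⁻¹ := by positivity
  have hc1 : ((p : ℝ) ^ n)⁻¹ ≤ 1 := inv_le_one_of_one_le₀ (one_le_pow₀ hp1.le)
  have hcc : ((p : ℝ) ^ (2 * n))⁻¹ = ((p : ℝ) ^ n)⁻¹ * ((p : ℝ) ^ n)⁻¹ := by
    rw [← mul_inv, ← pow_add]
    congr 2
    ring
  have hprod : X 0 ^ k 0 * X 1 ^ k 1 * X 2 ^ k 2 =
      (1 + α 0 + α 1 + α 2) • (1 : Matrix (Fin 2) (Fin 2) F) + ((p : F) ^ n) • Q + E := by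
    have hDi : ∀ i, D i = α i • (1 : Matrix (Fin 2) (Fin 2) F) +
        ((p : F) ^ n) • ((τ i : F) • (X i - 1)) + G i := by
      intro i
      have h := h1 i
      rw [hXD i] at h
      exact add_left_cancel h
    rw [hXD 0, hXD 1, hXD 2, hE, hQ, Fin.sum_univ_three, Fin.sum_univ_three]
    have hmul : (1 + D 0) * (1 + D 1) * (1 + D 2) = 1 + D 0 + D 1 + D 2 +
        (D 0 * D 1 + D 0 * D 2 + D 1 * D 2 + D 0 * D 1 * D 2) := by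
      noncomm_ring
    rw [hmul]
    nth_rewrite 1 [hDi 0]
    nth_rewrite 1 [hDi 1]
    nth_rewrite 1 [hDi 2]
    module
  have hEn : ∀ x y, ‖E x y‖ ≤ ((p : ℝ) ^ (2 * n))⁻¹ := by
    intro x y
    have hDn : ∀ i x y, ‖D i x y‖ ≤ ((p : ℝ) ^ n)⁻¹ := fun i => h2 i
    have hDD : ∀ i j x y, ‖(D i * D j) x y‖ ≤ ((p : ℝ) ^ (2 * n))⁻¹ := fun i j x y => by
      rw [hcc]
      exact POW_mul (D i) (D j) _ _ hc0 (hDn i) (hDn j) x y
    have hDDD : ‖(D 0 * D 1 * D 2) x y‖ ≤ ((p : ℝ) ^ (2 * n))⁻¹ := by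
      have h := POW_mul (D 0 * D 1) (D 2) (((p : ℝ) ^ (2 * n))⁻¹) 1 (by positivity) (hDD 0 1)
        (fun x y => (hDn 2 x y).trans hc1) x y
      rwa [mul_one] at h
    rw [hE, Fin.sum_univ_three]
    simp only [Matrix.add_apply]
    exact POW_add (POW_add (POW_add (h3 0 x y) (h3 1 x y)) (h3 2 x y))
      (POW_add (POW_add (POW_add (hDD 0 1 x y) (hDD 0 2 x y)) (hDD 1 2 x y)) hDDD)
  have hQn : ∀ x y, ‖Q x y‖ ≤ 1 := by
    intro x y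
    rw [hQ, Matrix.sum_apply, Fin.sum_univ_three]
    have h4 : ∀ i : Fin 3, ‖((τ i : F) • (X i - 1)) x y‖ ≤ 1 := by
      intro i
      rw [Matrix.smul_apply, smul_eq_mul, norm_mul, Matrix.sub_apply]
      have h5 : ‖X i x y - (1 : Matrix (Fin 2) (Fin 2) F) x y‖ ≤ 1 :=
        (hX i x y).trans (inv_le_one_of_one_le₀ (one_le_pow₀ hp1.le))
      calc ‖(τ i : F)‖ * ‖X i x y - (1 : Matrix (Fin 2) (Fin 2) F) x y‖ ≤ 1 * 1 :=
            mul_le_mul (hint _) h5 (norm_nonneg _) zero_le_one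
        _ = 1 := one_mul _
    exact POW_add (POW_add (h4 0) (h4 1)) (h4 2)
  have hdQ : dsc (∑ i, (τ i : F) • X i) = dsc Q := by
    rw [hQ]
    simp only [dsc, Matrix.trace_fin_two, Matrix.det_fin_two, Fin.sum_univ_three, Matrix.add_apply,
      Matrix.smul_apply, Matrix.sub_apply, Matrix.one_apply_eq, smul_eq_mul]
    rw [Matrix.one_apply_ne (show (0 : Fin 2) ≠ 1 by decide),
      Matrix.one_apply_ne (show (1 : Fin 2) ≠ 0 by decide)]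
    ring
  have hpn : ‖(p : F) ^ n‖ ≤ ((p : ℝ) ^ n)⁻¹ := by
    rw [norm_pow, ← map_natCast (algebraMap ℚ_[p] F) p, norm_algebraMap', Padic.norm_p, inv_pow]
  have hle : ((p : ℝ) ^ (2 * n))⁻¹ ≤ ((p : ℝ) ^ n)⁻¹ := by
    rw [hcc]
    calc ((p : ℝ) ^ n)⁻¹ * ((p : ℝ) ^ n)⁻¹ ≤ ((p : ℝ) ^ n)⁻¹ * 1 := by gcongr
      _ = _ := mul_one _
  have hfin := POW_dsc hnat Q E (1 + α 0 + α 1 + α 2) ((p : F) ^ n) (((p : ℝ) ^ n)⁻¹)
    (((p : ℝ) ^ (2 * n))⁻¹) hpn (by positivity) hle hQn hEn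
  rw [hprod, hdQ, mul_comm 2 n, pow_mul]
  refine hfin.trans_lt ?_
  rw [mul_comm n 2]
  exact mul_lt_mul_of_pos_right hn (by positivity)

end Pool.Agent.LB
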